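import Pool.Agent.X126.Perc.Tree
import Mathlib.Data.Set.Card
import Mathlib.Data.List.Range

/-! # Maker wins with a head start -/

set_option autoImplicit false

namespace Pool.Agent.X126.Perc

open Relation

/-- the edges, the hubs -/
abbrev Ed := List (Fin 10) × Fin (266 + 1)

/-- `C` contains the root, is closed under parents, and the chains below the root in `C` lie in `M` -/
def Good (C : Finset (List (Fin 10))) (M : Finset Ed) : Prop :=
  [] ∈ C ∧ ∀ a y, a :: y ∈ C → y ∈ C ∧ ∀ i, (a :: y, i) ∈ M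

lemma Good.card {C : Finset (List (Fin 10))} {M : Finset Ed} (h : Good C M) :
    (Bd C).card + C.card = 10 * C.card + 1 := by
  refine card_Bd C [] h.1 (fun y _ => List.nil_suffix) (fun y hy hn => ?_)
  match y, hy, hn with
  | [], _, hn => exact absurd rfl hn
  | a :: y, hy, _ => exact ⟨a, y, rfl, (h.2 a y hy).1⟩

/-- the state of the play -/
def State (c r : ℕ) (M B : Finset Ed) : Prop :=
  ∃ C R : Finset (List (Fin 10)), Good C M ∧ B.card + c ≤ 9 * C.card + 1 ∧ R ⊆ Bd C ∧ r ≤ R.card ∧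
    ∀ y ∈ R, (∀ i, (y, i) ∉ B) ∧ (y, 0) ∈ M

lemma State.reply {c r : ℕ} {M B b : Finset Ed} (h : State c r M B) (hb : b.card = 114) (hc : 114 ≤ c) :
    State (c - 114) (r - 114) M (B ∪ b) := by
  classical
  obtain ⟨C, R, h1, h2, h3, h4, h5⟩ := h
  refine ⟨C, R \ b.image Prod.fst, h1, ?_, Finset.sdiff_subset.trans h3, ?_, fun y hy => ?_⟩
  · have := Finset.card_union_le B b
    omega
  · have h6 := Finset.le_card_sdiff (b.image Prod.fst) R
    have h7 : (b.image Prod.fst).card ≤ b.card := Finset.card_image_le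
    omega
  · obtain ⟨h6, h7⟩ := Finset.mem_sdiff.1 hy
    refine ⟨fun i hi => ?_, (h5 y h6).2⟩
    rcases Finset.mem_union.1 hi with h8 | h8
    · exact (h5 y h6).1 i h8
    · exact h7 (Finset.mem_image.2 ⟨(y, i), h8, rfl⟩)

lemma move (C X Y : Finset (List (Fin 10))) (M B : Finset Ed) (hG : Good C M) (hX : X ⊆ Bd C)
    (hY : Y ⊆ Bd C) (hXY : Disjoint X Y) (hal : ∀ y ∈ X ∪ Y, ∀ i, (y, i) ∉ B)
    (hcost : ((X ×ˢ (Finset.univ : Finset (Fin (266 + 1))) ∪ Y ×ˢ {0}) \ M).card ≤ 3458) :
    ∃ x : Finset Ed, x.card = 3458 ∧ Disjoint x (M ∪ B) ∧ Good (C ∪ X) (M ∪ x) ∧ Y ⊆ Bd (C ∪ X) ∧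
      (∀ y ∈ Y, (y, (0 : Fin (266 + 1))) ∈ M ∪ x) ∧ (C ∪ X).card = C.card + X.card := by
  classical
  obtain ⟨x, h1, h2, h3⟩ := exists_move ((X ×ˢ (Finset.univ : Finset (Fin (266 + 1))) ∪ Y ×ˢ {0}) \ M)
    (M ∪ B) 3458 hcost (by
    rw [Finset.disjoint_left]
    rintro ⟨y, i⟩ he he2
    obtain ⟨h4, h5⟩ := Finset.mem_sdiff.1 he
    rcases Finset.mem_union.1 he2 with h6 | h6
    · exact h5 h6
    · refine hal y ?_ i h6
      rcases Finset.mem_union.1 h4 with h7 | h7
      · exact Finset.mem_union_left _ (Finset.mem_product.1 h7).1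
      · exact Finset.mem_union_right _ (Finset.mem_product.1 h7).1)
  have hU : ∀ e ∈ (X ×ˢ (Finset.univ : Finset (Fin (266 + 1))) ∪ Y ×ˢ {0}), e ∈ M ∪ x := by
    intro e he
    by_cases hM : e ∈ M
    · exact Finset.mem_union_left _ hM
    · exact Finset.mem_union_right _ (h2 (Finset.mem_sdiff.2 ⟨he, hM⟩))
  refine ⟨x, h1, h3, ⟨Finset.mem_union_left _ hG.1, fun a y hy => ?_⟩, fun y hy => ?_, fun y hy => ?_, ?_⟩
  · rcases Finset.mem_union.1 hy with h4 | h4
    · obtain ⟨h5, h6⟩ := hG.2 a y h4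
      exact ⟨Finset.mem_union_left _ h5, fun i => Finset.mem_union_left _ (h6 i)⟩
    · obtain ⟨⟨b, y', h5, h6⟩, -⟩ := mem_Bd.1 (hX h4)
      have : y = y' := (List.cons.inj h5).2
      rw [← this] at h6
      exact ⟨Finset.mem_union_left _ h6, fun i => hU _ (Finset.mem_union_left _
        (Finset.mem_product.2 ⟨h4, Finset.mem_univ _⟩))⟩
  · obtain ⟨⟨b, y', h5, h6⟩, h7⟩ := mem_Bd.1 (hY hy)
    refine mem_Bd.2 ⟨⟨b, y', h5, Finset.mem_union_left _ h6⟩, fun h8 => ?_⟩
    rcases Finset.mem_union.1 h8 with h9 | h9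
    · exact h7 h9
    · exact Finset.disjoint_left.1 hXY h9 hy
  · exact hU _ (Finset.mem_union_right _ (Finset.mem_product.2 ⟨hy, Finset.mem_singleton_self _⟩))
  · refine Finset.card_union_of_disjoint ?_
    rw [Finset.disjoint_left]
    intro y hy hy2
    exact (mem_Bd.1 (hX hy2)).2 hy

lemma phase0 {M B : Finset Ed} (h : State 266 0 M B) :
    ∃ x : Finset Ed, x.card = 3458 ∧ Disjoint x (M ∪ B) ∧ State 374 254 (M ∪ x) B := by
  classical
  obtain ⟨C, -, h1, h2, -, -, -⟩ := h
  have hc := h1.card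
  have hA : 266 ≤ (Bd C \ B.image Prod.fst).card := by
    have h6 := Finset.le_card_sdiff (B.image Prod.fst) (Bd C)
    have h7 : (B.image Prod.fst).card ≤ B.card := Finset.card_image_le
    omega
  obtain ⟨Z, hZ1, hZ2⟩ := Finset.exists_subset_card_eq hA
  obtain ⟨X, hX1, hX2⟩ := Finset.exists_subset_card_eq (show 12 ≤ Z.card by omega)
  have hY2 : (Z \ X).card = 254 := by
    rw [Finset.card_sdiff_of_subset hX1]
    omega
  obtain ⟨x, g1, g2, g3, g4, g5, g6⟩ := move C X (Z \ X) M B h1
    ((hX1.trans hZ1).trans Finset.sdiff_subset) ((Finset.sdiff_subset.trans hZ1).trans Finset.sdiff_subset)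
    Finset.disjoint_sdiff (fun y hy i hi => by
      have hyZ : y ∈ Z := by
        rcases Finset.mem_union.1 hy with h3 | h3
        · exact hX1 h3
        · exact (Finset.mem_sdiff.1 h3).1
      exact (Finset.mem_sdiff.1 (hZ1 hyZ)).2 (Finset.mem_image.2 ⟨(y, i), hi, rfl⟩)) (by
      refine (Finset.card_le_card Finset.sdiff_subset).trans ((Finset.card_union_le _ _).trans ?_)
      rw [Finset.card_product, Finset.card_product, hX2, hY2, Finset.card_univ, Fintype.card_fin,
        Finset.card_singleton])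
  refine ⟨x, g1, g2, C ∪ X, Z \ X, g3, by omega, g4, by omega, fun y hy => ⟨fun i hi => ?_, g5 y hy⟩⟩
  exact (Finset.mem_sdiff.1 (hZ1 (Finset.mem_sdiff.1 hy).1)).2 (Finset.mem_image.2 ⟨(y, i), hi, rfl⟩)

lemma phase1 {c r : ℕ} (hr : 13 ≤ r) {M B : Finset Ed} (h : State c r M B) :
    ∃ x : Finset Ed, x.card = 3458 ∧ Disjoint x (M ∪ B) ∧ State (c + 117) (r - 13) (M ∪ x) B := by
  classical
  obtain ⟨C, R, h1, h2, h3, h4, h5⟩ := h
  obtain ⟨X, hX1, hX2⟩ := Finset.exists_subset_card_eq (show 13 ≤ R.card by omega)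
  have hY2 : (R \ X).card = R.card - 13 := by
    rw [Finset.card_sdiff_of_subset hX1]
    omega
  obtain ⟨x, g1, g2, g3, g4, g5, g6⟩ := move C X (R \ X) M B h1
    (hX1.trans h3) (Finset.sdiff_subset.trans h3)
    Finset.disjoint_sdiff (fun y hy i hi => by
      have hyR : y ∈ R := by
        rcases Finset.mem_union.1 hy with h3 | h3
        · exact hX1 h3
        · exact (Finset.mem_sdiff.1 h3).1
      exact (h5 y hyR).1 i hi) (by
      have hsub : (X ×ˢ (Finset.univ : Finset (Fin (266 + 1))) ∪ (R \ X) ×ˢ {0}) \ M ⊆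
          X ×ˢ ((Finset.univ : Finset (Fin (266 + 1))).erase 0) := by
        rintro ⟨y, i⟩ he
        obtain ⟨h6, h7⟩ := Finset.mem_sdiff.1 he
        rcases Finset.mem_union.1 h6 with h8 | h8
        · have h9 := (Finset.mem_product.1 h8).1
          refine Finset.mem_product.2 ⟨h9, Finset.mem_erase.2 ⟨?_, Finset.mem_univ _⟩⟩
          rintro (h10 : i = 0)
          rw [h10] at h7
          exact h7 (h5 y (hX1 h9)).2
        · exfalso
          obtain ⟨h9, h10⟩ := Finset.mem_product.1 h8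
          have h11 : i = 0 := Finset.mem_singleton.1 h10
          rw [h11] at h7
          exact h7 (h5 y (Finset.mem_sdiff.1 h9).1).2
      refine (Finset.card_le_card hsub).trans ?_
      rw [Finset.card_product, hX2, Finset.card_erase_of_mem (Finset.mem_univ _), Finset.card_univ,
        Fintype.card_fin])
  refine ⟨x, g1, g2, C ∪ X, R \ X, g3, by omega, g4, by omega, fun y hy => ⟨fun i hi => ?_, g5 y hy⟩⟩
  exact (h5 y (Finset.mem_sdiff.1 hy).1).1 i hi

/-- before Maker's move -/
def Pre (n : ℕ) (M B : Finset Ed) : Prop :=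
  (n % 3 = 0 → State 266 0 M B) ∧ (n % 3 = 1 → State 260 140 M B) ∧ (n % 3 = 2 → State 263 13 M B)

/-- after Maker's move -/
def Post (n : ℕ) (M B : Finset Ed) : Prop :=
  (n % 3 = 0 → State 374 254 M B) ∧ (n % 3 = 1 → State 377 127 M B) ∧ (n % 3 = 2 → State 380 0 M B)

lemma Pre.move {n : ℕ} {M B : Finset Ed} (h : Pre n M B) :
    ∃ x : Finset Ed, x.card = 3458 ∧ Disjoint x (M ∪ B) ∧ Post n (M ∪ x) B := by
  have h3 : n % 3 = 0 ∨ n % 3 = 1 ∨ n % 3 = 2 := by omega
  rcases h3 with h4 | h4 | h4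
  · obtain ⟨x, h5, h6, h7⟩ := phase0 (h.1 h4)
    exact ⟨x, h5, h6, fun _ => h7, fun h8 => by omega, fun h8 => by omega⟩
  · obtain ⟨x, h5, h6, h7⟩ := phase1 (by norm_num) (h.2.1 h4)
    exact ⟨x, h5, h6, fun h8 => by omega, fun _ => h7, fun h8 => by omega⟩
  · obtain ⟨x, h5, h6, h7⟩ := phase1 (by norm_num) (h.2.2 h4)
    exact ⟨x, h5, h6, fun h8 => by omega, fun h8 => by omega, fun _ => h7⟩

lemma Post.reply {n : ℕ} {M B b : Finset Ed} (h : Post n M B) (hb : b.card = 114) :
    Pre (n + 1) M (B ∪ b) := by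
  refine ⟨fun h1 => ?_, fun h1 => ?_, fun h1 => ?_⟩
  · exact (h.2.2 (by omega)).reply hb (by norm_num)
  · exact (h.1 (by omega)).reply hb (by norm_num)
  · exact (h.2.1 (by omega)).reply hb (by norm_num)

lemma Pre.big {n : ℕ} {M B : Finset Ed} (h : Pre n M B) :
    ∃ C : Finset (List (Fin 10)), Good C M ∧ B.card ≤ 9 * C.card := by
  have h3 : n % 3 = 0 ∨ n % 3 = 1 ∨ n % 3 = 2 := by omega
  rcases h3 with h4 | h4 | h4
  · obtain ⟨C, R, h5, h6, -⟩ := h.1 h4
    exact ⟨C, h5, by omega⟩
  · obtain ⟨C, R, h5, h6, -⟩ := h.2.1 h4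
    exact ⟨C, h5, by omega⟩
  · obtain ⟨C, R, h5, h6, -⟩ := h.2.2 h4
    exact ⟨C, h5, by omega⟩

lemma reach {C : Finset (List (Fin 10))} {M B : Finset Ed} (h : Good C M) (hd : Disjoint M B) :
    ∀ y : List (Fin 10), y ∈ C → (some (y, Fin.last 266) : Option Ed) ∈
      (tree 10 266).comp (↑B : Set Ed) (some ([], Fin.last 266)) := by
  intro y
  induction y with
  | nil => exact fun _ => ReflTransGen.refl
  | cons a y ih =>
    intro hy
    obtain ⟨h1, h2⟩ := h.2 a y hy
    have h3 : ReflTransGen ((tree 10 266).Step (↑B : Set Ed)) (some ([], Fin.last 266))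
      (some (y, Fin.last 266)) := ih h1
    have h4 : ∀ i : ℕ, ∀ hi : i < 266 + 1, ReflTransGen ((tree 10 266).Step (↑B : Set Ed))
        (some ([], Fin.last 266)) (some (a :: y, ⟨i, hi⟩)) := by
      intro i
      induction i with
      | zero =>
        intro hi
        refine h3.tail ((step_iff _ _ _).2 ⟨(a :: y, ⟨0, hi⟩), fun hB => ?_, Or.inl ⟨rfl, rfl⟩⟩)
        exact Finset.disjoint_left.1 hd (h2 _) (Finset.mem_coe.1 hB)
      | succ i ih2 =>
        intro hi
        refine (ih2 (Nat.lt_of_succ_lt hi)).tail ((step_iff _ _ _).2 ⟨(a :: y, ⟨i + 1, hi⟩),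
          fun hB => ?_, Or.inl ⟨rfl, rfl⟩⟩)
        exact Finset.disjoint_left.1 hd (h2 _) (Finset.mem_coe.1 hB)
    exact h4 266 (Nat.lt_succ_self _)

lemma exists_seq {α : Type} (R : List α → α → Prop) (h : ∀ l, ∃ x, R l x) :
    ∃ a : ℕ → α, ∀ n, R ((List.range n).map a) (a n) := by
  choose f hf using h
  let H : ℕ → List α := fun n => Nat.rec [] (fun _ l => l ++ [f l]) n
  have h1 : ∀ n, (List.range n).map (fun n => f (H n)) = H n := by
    intro n
    induction n with
    | zero => rfl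
    | succ n ih =>
      rw [List.range_succ, List.map_append, ih]
      rfl
  refine ⟨fun n => f (H n), fun n => ?_⟩
  rw [h1 n]
  exact hf _

/-- the hubs at distance `< 30` from the root on one branch -/
def C₀ : Finset (List (Fin 10)) := (Finset.range 30).image (fun n => List.replicate n 0)

/-- the head start: the chains between them -/
def F₀ : Finset Ed := (C₀.erase []) ×ˢ (Finset.univ : Finset (Fin (266 + 1)))

lemma start : Pre 0 F₀ ∅ := by
  refine ⟨fun _ => ⟨C₀, ∅, ⟨?_, fun a y hy => ?_⟩, ?_, Finset.empty_subset _, Nat.zero_le _,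
    fun y hy => absurd hy (Finset.notMem_empty y)⟩, fun h => by omega, fun h => by omega⟩
  · exact Finset.mem_image.2 ⟨0, Finset.mem_range.2 (by norm_num), rfl⟩
  · refine ⟨?_, fun i => Finset.mem_product.2 ⟨Finset.mem_erase.2 ⟨by simp, hy⟩, Finset.mem_univ _⟩⟩
    obtain ⟨n, hn, h1⟩ := Finset.mem_image.1 hy
    match n, hn, h1 with
    | 0, _, h1 => exact absurd h1 (by simp)
    | n + 1, hn, h1 =>
      rw [List.replicate_succ] at h1
      refine Finset.mem_image.2 ⟨n, ?_, (List.cons.inj h1).2⟩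
      have := Finset.mem_range.1 hn
      exact Finset.mem_range.2 (by omega)
  · have : C₀.card = 30 := by
      unfold C₀
      rw [Finset.card_image_of_injective, Finset.card_range]
      intro m n h
      have := congrArg List.length h
      simpa using this
    rw [this]
    norm_num

/-- Maker wins with the head start `F₀`. -/
theorem maker_wins : ¬ BreakerWins (tree 10 266) 3458 114 F₀ (some ([], Fin.last 266)) := by
  classical
  rintro ⟨σ, hσ⟩
  let MS : List (Finset Ed) → Finset Ed := fun l => F₀ ∪ l.foldr (· ∪ ·) ∅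
  let BS : List (Finset Ed) → Finset Ed := fun l => (Finset.range l.length).biUnion
    (fun k => σ (l.take (k + 1)))
  obtain ⟨a, ha⟩ := exists_seq (fun (l : List (Finset Ed)) (x : Finset Ed) => x.card = 3458 ∧
    Disjoint x (MS l ∪ BS l) ∧ (Pre l.length (MS l) (BS l) → Post l.length (MS l ∪ x) (BS l))) (by
    intro l
    by_cases h : Pre l.length (MS l) (BS l)
    · obtain ⟨x, h1, h2, h3⟩ := h.move
      exact ⟨x, h1, h2, fun _ => h3⟩
    · obtain ⟨x, h1, -, h3⟩ := exists_move ∅ (MS l ∪ BS l) 3458 (by simp) (by simp)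
      exact ⟨x, h1, h3, fun h4 => absurd h4 h⟩)
  have hM : ∀ n, MS ((List.range n).map a) = F₀ ∪ upTo a n := by
    intro n
    change F₀ ∪ _ = F₀ ∪ _
    congr 1
    induction n with
    | zero => simp [upTo]
    | succ n ih =>
      rw [List.range_succ, List.map_append, upTo_succ, ← ih, List.foldr_append]
      simp only [List.map_cons, List.map_nil, List.foldr_cons, List.foldr_nil, Finset.union_empty]
      generalize List.map a (List.range n) = l
      induction l with
      | nil => simp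
      | cons b l ih2 => rw [List.foldr_cons, List.foldr_cons, ih2, Finset.union_assoc]
  have hB : ∀ n, BS ((List.range n).map a) = upTo (ans σ a) n := by
    intro n
    change (Finset.range ((List.range n).map a).length).biUnion _ = (Finset.range n).biUnion _
    rw [List.length_map, List.length_range]
    refine Finset.biUnion_congr rfl fun k hk => ?_
    have hk := Finset.mem_range.1 hk
    rw [← List.map_take, List.take_range, Nat.min_eq_left hk]
    rfl
  have hlen : ∀ n, ((List.range n).map a).length = n := fun n => by simp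
  have ha1 : ∀ n, MakerLegal 3458 F₀ σ a n := by
    intro n
    obtain ⟨h1, h2, -⟩ := ha n
    rw [hM, hB] at h2
    exact ⟨h1, h2⟩
  obtain ⟨hb, n, hn⟩ := hσ a ha1
  have hpre : ∀ n, Pre n (F₀ ∪ upTo a n) (upTo (ans σ a) n) ∧
      Disjoint (F₀ ∪ upTo a n) (upTo (ans σ a) n) ∧ (upTo (ans σ a) n).card = 114 * n := by
    intro n
    induction n with
    | zero =>
      rw [upTo_zero, upTo_zero, Finset.union_empty]
      exact ⟨start, Finset.disjoint_empty_right _, by simp⟩
    | succ n ih =>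
      obtain ⟨h1, h2, h3⟩ := ih
      obtain ⟨h4, h5, h6⟩ := ha n
      rw [hM, hB, hlen] at h6
      obtain ⟨h7, h8⟩ := hb n
      have h9 := (h6 h1).reply h7
      rw [Finset.union_assoc, ← upTo_succ] at h9
      rw [upTo_succ (ans σ a) n]
      refine ⟨h9, ?_, ?_⟩
      · rw [Finset.disjoint_union_right]
        constructor
        · rw [upTo_succ, ← Finset.union_assoc, Finset.disjoint_union_left]
          refine ⟨h2, ?_⟩
          exact Finset.disjoint_of_subset_right Finset.subset_union_right (ha1 n).2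
        · exact (Finset.disjoint_of_subset_right Finset.subset_union_left h8).symm
      · rw [Finset.card_union_of_disjoint, h3, h7]
        · ring
        · exact (Finset.disjoint_of_subset_right Finset.subset_union_right h8).symm
  -- the contradiction
  set c := ((tree 10 266).comp (↑(upTo (ans σ a) n) : Set Ed) (some ([], Fin.last 266))).ncard with hc
  obtain ⟨h1, h2, h3⟩ := hpre (n + c + 1)
  obtain ⟨C, h4, h5⟩ := h1.big
  rw [h3] at h5
  have h6 : (fun y : List (Fin 10) => (some (y, Fin.last 266) : Option Ed)) '' (↑C : Set (List (Fin 10))) ⊆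
      (tree 10 266).comp (↑(upTo (ans σ a) n) : Set Ed) (some ([], Fin.last 266)) := by
    rintro v ⟨y, hy, rfl⟩
    refine MGraph.comp_anti (tree 10 266) (B' := (↑(upTo (ans σ a) (n + c + 1)) : Set Ed)) ?_ _
      (reach h4 h2 y (Finset.mem_coe.1 hy))
    exact Finset.coe_subset.2 (upTo_mono _ (by omega))
  have h7 := Set.ncard_le_ncard h6 hn
  rw [Set.ncard_image_of_injective, Set.ncard_coe_finset] at h7
  · omega
  · intro y y' h
    exact (Prod.mk.inj (Option.some.inj h)).1

end Pool.Agent.X126.Perc
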