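import Pool.Agent.X126.Perc.Tree
import Mathlib.Algebra.BigOperators.Group.Finset.Basic
import Mathlib.Algebra.Order.BigOperators.Group.Finset
import Mathlib.Algebra.BigOperators.Ring.Finset

/-! # Breaker wins from every root -/

set_option autoImplicit false

namespace Pool.Agent.X126.Perc

open Relation

/-- A subset of given size of small weight. -/
lemma exists_light {α : Type} [DecidableEq α] (f : α → ℕ) (s : ℕ) : ∀ (n : ℕ) (X : Finset α),
    X.card = n → s ≤ n → ∃ S : Finset α, S ⊆ X ∧ S.card = s ∧ n * ∑ x ∈ S, f x ≤ s * ∑ x ∈ X, f x := by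
  intro n
  induction n with
  | zero =>
    intro X hX hs
    have : s = 0 := by omega
    subst this
    exact ⟨∅, Finset.empty_subset _, rfl, by simp⟩
  | succ n ih =>
    intro X hX hs
    rcases Nat.lt_or_ge n s with h1 | h1
    · have : s = n + 1 := by omega
      subst this
      exact ⟨X, Finset.Subset.refl _, hX, le_rfl⟩
    · have hne : X.Nonempty := Finset.card_pos.1 (by omega)
      obtain ⟨m, hm, hmax⟩ := X.exists_max_image f hne
      obtain ⟨S, h2, h3, h4⟩ := ih (X.erase m) (by rw [Finset.card_erase_of_mem hm, hX]; rfl) h1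
      refine ⟨S, h2.trans (Finset.erase_subset _ _), h3, ?_⟩
      have h5 : ∑ x ∈ X.erase m, f x + f m = ∑ x ∈ X, f x := Finset.sum_erase_add _ _ hm
      have h6 : ∑ x ∈ X, f x ≤ (n + 1) * f m := by
        have := Finset.sum_le_card_nsmul X f (f m) hmax
        simpa [hX] using this
      rcases Nat.eq_zero_or_pos n with h0 | h0
      · have : s = 0 := by omega
        subst this
        rw [Finset.card_eq_zero.1 h3]
        simp
      · -- (n+1) * sum over erase ≤ n * sum over X
        have h7 : (n + 1) * ∑ x ∈ X.erase m, f x ≤ n * ∑ x ∈ X, f x := by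
          nlinarith
        have h8 : n * ((n + 1) * ∑ x ∈ S, f x) ≤ n * (s * ∑ x ∈ X, f x) := by
          calc n * ((n + 1) * ∑ x ∈ S, f x) = (n + 1) * (n * ∑ x ∈ S, f x) := by ring
            _ ≤ (n + 1) * (s * ∑ x ∈ X.erase m, f x) := Nat.mul_le_mul_left _ h4
            _ = s * ((n + 1) * ∑ x ∈ X.erase m, f x) := by ring
            _ ≤ s * (n * ∑ x ∈ X, f x) := Nat.mul_le_mul_left _ h7
            _ = n * (s * ∑ x ∈ X, f x) := by ring
        exact Nat.le_of_mul_le_mul_left h8 h0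

variable {D L : ℕ}

/-- the words whose chains lie entirely in `M` -/
def full (M : Finset (List (Fin D) × Fin (L + 1))) : Finset (List (Fin D)) :=
  (M.image Prod.fst).filter (fun y => ∀ i, (y, i) ∈ M)

lemma mem_full {M : Finset (List (Fin D) × Fin (L + 1))} {y : List (Fin D)} :
    y ∈ full M ↔ ∀ i, (y, i) ∈ M := by
  unfold full
  rw [Finset.mem_filter, Finset.mem_image]
  constructor
  · exact fun h => h.2
  · exact fun h => ⟨⟨(y, 0), h 0, rfl⟩, h⟩

/-- the claimed edges in the branch of `x` -/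
def reg (M : Finset (List (Fin D) × Fin (L + 1))) (x : List (Fin D)) :
    Finset (List (Fin D) × Fin (L + 1)) := M.filter (fun e => x <:+ e.1)

lemma reg_disjoint {P : Set (List (Fin D))} {t : List (Fin D)} {C : Finset (List (Fin D))}
    (hC : ∀ y, y ∈ C ↔ Con P t y) {x x' : List (Fin D)} (hx : x ∈ Bd C) (hx' : x' ∈ Bd C)
    {y : List (Fin D)} (h1 : x <:+ y) (h2 : x' <:+ y) : x = x' := by
  have key : ∀ x x' : List (Fin D), x ∈ Bd C → x' ∈ Bd C → x <:+ x' → x = x' := by
    intro x x' hx hx' h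
    by_contra hne
    obtain ⟨⟨a, y', rfl, hy'⟩, h3⟩ := mem_Bd.1 hx'
    obtain ⟨⟨b, y'', rfl, hy''⟩, h4⟩ := mem_Bd.1 hx
    rcases List.suffix_cons_iff.1 h with h5 | h5
    · exact hne h5
    · exact h4 ((hC _).2 (((hC _).1 hy').of_suffix h5
        (((hC _).1 hy'').suffix.trans (List.suffix_cons b y''))))
  rcases List.suffix_or_suffix_of_suffix h1 h2 with h | h
  · exact key x x' hx hx' h
  · exact (key x' x hx' hx h).symm

lemma count {P : Set (List (Fin D))} {t : List (Fin D)} {C : Finset (List (Fin D))}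
    (hC : ∀ y, y ∈ C ↔ Con P t y) (M : Finset (List (Fin D) × Fin (L + 1)))
    (hP : ∀ y ∈ P, ∀ i, (y, i) ∈ M) :
    (L + 1) * (C.card - 1) + ∑ x ∈ Bd C, (reg M x).card ≤ M.card := by
  have ht : t ∈ C := (hC t).2 Con.base
  have e1 : ((C.erase t) ×ˢ (Finset.univ : Finset (Fin (L + 1)))).card = (L + 1) * (C.card - 1) := by
    rw [Finset.card_product, Finset.card_erase_of_mem ht, Finset.card_univ, Fintype.card_fin, mul_comm]
  have e2 : ((Bd C).biUnion (reg M)).card = ∑ x ∈ Bd C, (reg M x).card := by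
    refine Finset.card_biUnion ?_
    intro x hx x' hx' hne
    rw [Function.onFun, Finset.disjoint_left]
    intro e he he'
    exact hne (reg_disjoint hC hx hx' (Finset.mem_filter.1 he).2 (Finset.mem_filter.1 he').2)
  rw [← e1, ← e2, ← Finset.card_union_of_disjoint]
  · apply Finset.card_le_card
    intro e he
    rcases Finset.mem_union.1 he with h | h
    · have h1 := (Finset.mem_product.1 h).1
      have h2 := Finset.mem_erase.1 h1
      exact hP e.1 (((hC _).1 h2.2).mem h2.1) e.2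
    · obtain ⟨x, -, hx2⟩ := Finset.mem_biUnion.1 h
      exact (Finset.mem_filter.1 hx2).1
  · rw [Finset.disjoint_left]
    intro e he he'
    obtain ⟨x, hx, hx2⟩ := Finset.mem_biUnion.1 he'
    have h1 := (Finset.mem_erase.1 (Finset.mem_product.1 he).1).2
    obtain ⟨⟨a, y, rfl, hy⟩, h4⟩ := mem_Bd.1 hx
    exact h4 ((hC _).2 (((hC _).1 h1).of_suffix (Finset.mem_filter.1 hx2).2
        (((hC _).1 hy).suffix.trans (List.suffix_cons a y))))

/-- a word of the larger set passes through the boundary of the smaller one -/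
lemma through {P Q : Set (List (Fin D))} {t : List (Fin D)} {C : Finset (List (Fin D))}
    (hC : ∀ y, y ∈ C ↔ Con P t y) {y : List (Fin D)} (hy : Con Q t y) (hn : y ∉ C) :
    ∃ x ∈ Bd C, x <:+ y ∧ x ∈ Q := by
  induction hy with
  | base => exact absurd ((hC t).2 Con.base) hn
  | step a y h1 h2 ih =>
    by_cases hc : y ∈ C
    · exact ⟨a :: y, mem_Bd.2 ⟨⟨a, y, rfl, hc⟩, hn⟩, List.suffix_refl _, h2⟩
    · obtain ⟨x, h3, h4, h5⟩ := ih hc
      exact ⟨x, h3, h4.trans (List.suffix_cons a y), h5⟩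

theorem core (h : List (Fin 10)) (M : Finset (List (Fin 10) × Fin (266 + 1))) (hM : M.card = 3458)
    (g₀ : List (Fin 10) × Fin (266 + 1)) (hg₀ : g₀ ∉ M) :
    ∃ B₁ : Finset (List (Fin 10) × Fin (266 + 1)), B₁.card = 114 ∧ Disjoint B₁ M ∧ g₀ ∈ B₁ ∧
      ∀ M' : Finset (List (Fin 10) × Fin (266 + 1)), M ⊆ M' → M'.card = 2 * 3458 → Disjoint M' B₁ →
      ∃ B₂ : Finset (List (Fin 10) × Fin (266 + 1)), B₂.card = 114 ∧ Disjoint B₂ (M' ∪ B₁) ∧
      ∃ (t : List (Fin 10)) (C : Finset (List (Fin 10))) (P : Set (List (Fin 10))),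
        (∀ y, y ∈ C ↔ Con P t y) ∧ Con P t h ∧ (t = [] ∨ ∃ i, (t, i) ∈ B₁ ∪ B₂) ∧
        ∀ x ∈ Bd C, ∃ i, (x, i) ∈ B₁ ∪ B₂ := by
  classical
  obtain ⟨t, ht, ht2⟩ := exists_top (↑(full M) : Set (List (Fin 10))) h
  obtain ⟨C, hC⟩ := exists_C (full M) t
  have htC : t ∈ C := (hC t).2 Con.base
  have hc1 := count (L := 266) hC M (fun y hy i => mem_full.1 hy i)
  have hc2 := card_Bd_con hC
  have hc3 : 0 < C.card := Finset.card_pos.2 ⟨t, htC⟩
  rw [hM] at hc1
  -- the survivors
  obtain ⟨S, hS1, hS2, hS3, hS4⟩ : ∃ S : Finset (List (Fin 10)), S ⊆ Bd C ∧ S.card ≤ 6 ∧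
      (Bd C \ S).card ≤ 112 ∧ ∑ x ∈ S, (reg M x).card ≤ 12 := by
    rcases Nat.lt_or_ge C.card 13 with h1 | h1
    · refine ⟨∅, Finset.empty_subset _, by simp, ?_, by simp⟩
      rw [Finset.sdiff_empty]
      omega
    · have h2 : C.card = 13 := by omega
      have h3 : (Bd C).card = 118 := by omega
      obtain ⟨S, h4, h5, h6⟩ := exists_light (fun x => (reg M x).card) 6 118 (Bd C) h3 (by norm_num)
      refine ⟨S, h4, le_of_eq h5, ?_, ?_⟩
      · rw [Finset.card_sdiff_of_subset h4]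
        omega
      · rw [h2] at hc1
        omega
  -- an unclaimed edge in every chain that is not full
  have hg : ∀ x : List (Fin 10), ∃ i : Fin (266 + 1), x ∉ full M → (x, i) ∉ M := by
    intro x
    by_cases hx : x ∈ full M
    · exact ⟨0, fun h2 => absurd hx h2⟩
    · rw [mem_full] at hx
      push Not at hx
      obtain ⟨i, hi⟩ := hx
      exact ⟨i, fun _ => hi⟩
  choose g hg using hg
  set K : Finset (List (Fin 10) × Fin (266 + 1)) := (Bd C \ S).image (fun x => (x, g x)) ∪
    ((if t ∈ full M then ∅ else {(t, g t)}) ∪ {g₀}) with hK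
  have hKc : K.card ≤ 114 := by
    have h1 : ((Bd C \ S).image (fun x => (x, g x))).card ≤ 112 := Finset.card_image_le.trans hS3
    have h2 : ((if t ∈ full M then ∅ else {(t, g t)} :
        Finset (List (Fin 10) × Fin (266 + 1)))).card ≤ 1 := by
      split_ifs <;> simp
    have h3 := Finset.card_union_le ((Bd C \ S).image (fun x => (x, g x)))
      ((if t ∈ full M then ∅ else {(t, g t)}) ∪ {g₀})
    have h4 := Finset.card_union_le ((if t ∈ full M then ∅ else {(t, g t)} :
        Finset (List (Fin 10) × Fin (266 + 1)))) {g₀}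
    rw [Finset.card_singleton] at h4
    rw [hK]
    omega
  have hKd : Disjoint K M := by
    rw [Finset.disjoint_left]
    intro e he
    rw [hK, Finset.mem_union, Finset.mem_union] at he
    rcases he with he | he | he
    · obtain ⟨x, hx, rfl⟩ := Finset.mem_image.1 he
      exact hg x (fun h2 => Bd_notMem hC (Finset.mem_sdiff.1 hx).1 h2)
    · split_ifs at he with h5
      · simp at he
      · rw [Finset.mem_singleton.1 he]
        exact hg t h5
    · rw [Finset.mem_singleton.1 he]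
      exact hg₀
  obtain ⟨B₁, hB1, hB2, hB3⟩ := exists_move K M 114 hKc hKd
  have hBS : ∀ x ∈ Bd C, x ∉ S → (x, g x) ∈ B₁ := fun x hx hxS => hB2 (Finset.mem_union_left _
    (Finset.mem_image.2 ⟨x, Finset.mem_sdiff.2 ⟨hx, hxS⟩, rfl⟩))
  refine ⟨B₁, hB1, hB3, hB2 (Finset.mem_union_right _ (Finset.mem_union_right _
    (Finset.mem_singleton_self _))), fun M' hMM hM' hd => ?_⟩
  have hPP : (↑(full M) : Set (List (Fin 10))) ⊆ ↑(full M') := by
    intro y hy
    exact mem_full.2 fun i => hMM (mem_full.1 hy i)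
  obtain ⟨C', hC'⟩ := exists_C (full M') t
  have hCC : C ⊆ C' := fun y hy => (hC' y).2 (((hC y).1 hy).mono hPP)
  have hkill : ∀ x ∈ Bd C, x ∈ full M' → x ∈ S := by
    intro x hx hx2
    by_contra hxS
    exact Finset.disjoint_left.1 hd (mem_full.1 hx2 (g x)) (hBS x hx hxS)
  have hnew : (C' \ C).card ≤ 12 := by
    have h1 : (C' \ C) ×ˢ (Finset.univ : Finset (Fin (266 + 1))) ⊆ (M' \ M) ∪ S.biUnion (reg M) := by
      rintro ⟨y, i⟩ hy
      have h2 := Finset.mem_sdiff.1 (Finset.mem_product.1 hy).1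
      have h2' : y ∈ C' := h2.1
      have h2'' : y ∉ C := h2.2
      obtain ⟨x, h3, h4, h5⟩ := through hC ((hC' y).1 h2') h2''
      have h6 : (y, i) ∈ M' := by
        refine mem_full.1 (((hC' y).1 h2').mem ?_) i
        rintro rfl
        exact h2'' htC
      by_cases h7 : (y, i) ∈ M
      · exact Finset.mem_union_right _ (Finset.mem_biUnion.2 ⟨x, hkill x h3 h5,
          Finset.mem_filter.2 ⟨h7, h4⟩⟩)
      · exact Finset.mem_union_left _ (Finset.mem_sdiff.2 ⟨h6, h7⟩)
    have h2 := Finset.card_le_card h1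
    rw [Finset.card_product, Finset.card_univ, Fintype.card_fin] at h2
    have h3 := Finset.card_union_le (M' \ M) (S.biUnion (reg M))
    have h4 : (M' \ M).card = 3458 := by
      rw [Finset.card_sdiff_of_subset hMM]
      omega
    have h5 : (S.biUnion (reg M)).card ≤ ∑ x ∈ S, (reg M x).card := Finset.card_biUnion_le
    omega
  have hc4 := card_Bd_con hC'
  have hc5 : C'.card = C.card + (C' \ C).card := by
    rw [Finset.card_sdiff_of_subset hCC]
    have := Finset.card_le_card hCC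
    omega
  have hsub : Bd C \ S ⊆ Bd C' := by
    intro x hx
    obtain ⟨hx1, hx2⟩ := Finset.mem_sdiff.1 hx
    obtain ⟨⟨a, y, h1, h2⟩, h3⟩ := mem_Bd.1 hx1
    refine mem_Bd.2 ⟨⟨a, y, h1, hCC h2⟩, fun h4 => ?_⟩
    refine hx2 (hkill x hx1 (((hC' x).1 h4).mem ?_))
    rintro rfl
    exact h3 htC
  have hcU : (Bd C' \ (Bd C \ S)).card ≤ 114 := by
    rw [Finset.card_sdiff_of_subset hsub, Finset.card_sdiff_of_subset hS1]
    omega
  have hg' : ∀ x : List (Fin 10), ∃ i : Fin (266 + 1), x ∉ full M' → (x, i) ∉ M' := by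
    intro x
    by_cases hx : x ∈ full M'
    · exact ⟨0, fun h2 => absurd hx h2⟩
    · rw [mem_full] at hx
      push Not at hx
      obtain ⟨i, hi⟩ := hx
      exact ⟨i, fun _ => hi⟩
  choose g' hg' using hg'
  set K' : Finset (List (Fin 10) × Fin (266 + 1)) :=
    ((Bd C' \ (Bd C \ S)).image (fun x => (x, g' x))) \ B₁ with hK'
  have hK'c : K'.card ≤ 114 := (Finset.card_le_card Finset.sdiff_subset).trans
    (Finset.card_image_le.trans hcU)
  have hK'd : Disjoint K' (M' ∪ B₁) := by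
    rw [Finset.disjoint_left]
    intro e he he2
    obtain ⟨he3, he4⟩ := Finset.mem_sdiff.1 he
    obtain ⟨x, hx, rfl⟩ := Finset.mem_image.1 he3
    rcases Finset.mem_union.1 he2 with h1 | h1
    · exact hg' x (fun h2 => Bd_notMem hC' (Finset.mem_sdiff.1 hx).1 h2) h1
    · exact he4 h1
  obtain ⟨B₂, hB4, hB5, hB6⟩ := exists_move K' (M' ∪ B₁) 114 hK'c hK'd
  refine ⟨B₂, hB4, hB6, t, C', ↑(full M'), hC', ht.mono hPP, ?_, fun x hx => ?_⟩
  · rcases ht2 with h1 | h1
    · right
      refine ⟨g t, Finset.mem_union_left _ (hB2 ?_)⟩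
      rw [hK, if_neg (show t ∉ full M from fun h2 => h1 (Finset.mem_coe.2 h2))]
      simp
    · exact Or.inl h1
  · by_cases h1 : x ∈ Bd C \ S
    · obtain ⟨h2, h3⟩ := Finset.mem_sdiff.1 h1
      exact ⟨g x, Finset.mem_union_left _ (hBS x h2 h3)⟩
    · refine ⟨g' x, ?_⟩
      by_cases h2 : (x, g' x) ∈ B₁
      · exact Finset.mem_union_left _ h2
      · refine Finset.mem_union_right _ (hB5 (Finset.mem_sdiff.2 ⟨Finset.mem_image.2 ⟨x, ?_, rfl⟩, h2⟩))
        exact Finset.mem_sdiff.2 ⟨hx, h1⟩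

/-- Breaker wins from every root. -/
theorem breaker_wins (v₀ : Option (List (Fin 10) × Fin (266 + 1))) :
    BreakerWins (tree 10 266) 3458 114 ∅ v₀ := by
  classical
  refine wins_of_two (tree 10 266) 3458 114 v₀ fun M hM => ?_
  obtain ⟨g₁, hg₁⟩ := Infinite.exists_notMem_finset M
  -- the case of a cut of the chain `[]`
  have root : ∀ i' : Fin (266 + 1), ([], i') ∉ M → (v₀ = none ∨ ∃ j, j < i' ∧ v₀ = some ([], j)) →
      ∃ B₁ : Finset (List (Fin 10) × Fin (266 + 1)), B₁.card = 114 ∧ Disjoint B₁ M ∧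
      ∀ M' : Finset (List (Fin 10) × Fin (266 + 1)), M ⊆ M' → M'.card = 2 * 3458 → Disjoint M' B₁ →
      ∃ B₂ : Finset (List (Fin 10) × Fin (266 + 1)), B₂.card = 114 ∧ Disjoint B₂ (M' ∪ B₁) ∧
      ((tree 10 266).comp (↑(B₁ ∪ B₂) : Set (List (Fin 10) × Fin (266 + 1))) v₀).Finite := by
    intro i' hi' hv
    obtain ⟨B₁, h1, h2, h3, h4⟩ := core [] M hM ([], i') hi'
    refine ⟨B₁, h1, h2, fun M' h5 h6 h7 => ?_⟩
    obtain ⟨B₂, h8, h9, -⟩ := h4 M' h5 h6 h7
    refine ⟨B₂, h8, h9, ?_⟩
    have hB : (([], i') : List (Fin 10) × Fin (266 + 1)) ∈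
        (↑(B₁ ∪ B₂) : Set (List (Fin 10) × Fin (266 + 1))) :=
      Finset.mem_coe.2 (Finset.mem_union_left _ h3)
    refine Set.Finite.subset ?_ (comp_subset _ _ (low_step _ [] i' hB (fun u => u = none) ?_
      (Or.inl ⟨rfl, rfl⟩)) v₀ hv)
    · refine Set.Finite.subset ((Set.finite_range (fun j : Fin (266 + 1) =>
        (some ([], j) : Option (List (Fin 10) × Fin (266 + 1))))).insert none) ?_
      rintro v (hv | ⟨j, -, hv⟩)
      · exact Or.inl hv
      · exact Or.inr ⟨j, hv.symm⟩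
    · rintro u v hs rfl
      right
      obtain ⟨e, he, ⟨h10, h11⟩ | ⟨h10, h11⟩⟩ := (step_iff _ _ _).1 hs
      · subst h11
        match e, he, h10 with
        | ([], ⟨0, h0⟩), he, h10 =>
          refine ⟨⟨0, h0⟩, ?_, rfl⟩
          rcases Nat.eq_zero_or_pos i'.1 with h12 | h12
          · exfalso
            have : i' = ⟨0, h0⟩ := Fin.ext h12
            rw [this] at hB
            exact he hB
          · exact h12
        | (a :: y, ⟨0, h0⟩), he, h10 => exact absurd h10 (by simp [pred])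
        | (y, ⟨i + 1, h0⟩), he, h10 =>
          exfalso
          revert h10
          cases y <;> simp [pred]
      · exact absurd h11 (by simp)
  match v₀, root with
  | none, root =>
    by_cases hall : ∀ i, (([], i) : List (Fin 10) × Fin (266 + 1)) ∈ M
    · obtain ⟨B₁, h1, h2, -, h4⟩ := core [] M hM g₁ hg₁
      refine ⟨B₁, h1, h2, fun M' h5 h6 h7 => ?_⟩
      obtain ⟨B₂, h8, h9, t, C, P, h10, h11, h12, h13⟩ := h4 M' h5 h6 h7
      refine ⟨B₂, h8, h9, ?_⟩
      have ht : t = [] := List.suffix_nil.1 h11.suffix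
      refine (inv_finite (↑(B₁ ∪ B₂)) t C ((h10 t).2 Con.base)).subset
        (comp_subset _ _ (inv_step _ P t C h10 ?_ ?_) none ⟨ht, fun j hj => ?_⟩)
      · exact Or.inl ht
      · intro x hx
        obtain ⟨i, hi⟩ := h13 x hx
        exact ⟨i, Finset.mem_coe.2 hi⟩
      · rw [ht] at hj
        have hm := h5 (hall j)
        rcases Finset.mem_union.1 (Finset.mem_coe.1 hj) with h14 | h14
        · exact Finset.disjoint_left.1 h7 hm h14
        · exact Finset.disjoint_left.1 h9 h14 (Finset.mem_union_left _ hm)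
    · push Not at hall
      obtain ⟨i', hi'⟩ := hall
      exact root i' hi' (Or.inl rfl)
  | some (w, i), root =>
    by_cases hall : ∀ j, i < j → (w, j) ∈ M
    · obtain ⟨B₁, h1, h2, -, h4⟩ := core w M hM g₁ hg₁
      refine ⟨B₁, h1, h2, fun M' h5 h6 h7 => ?_⟩
      obtain ⟨B₂, h8, h9, t, C, P, h10, h11, h12, h13⟩ := h4 M' h5 h6 h7
      refine ⟨B₂, h8, h9, ?_⟩
      refine (inv_finite (↑(B₁ ∪ B₂)) t C ((h10 t).2 Con.base)).subset
        (comp_subset _ _ (inv_step _ P t C h10 ?_ ?_) _ ?_)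
      · rcases h12 with h14 | ⟨i, hi⟩
        · exact Or.inl h14
        · exact Or.inr ⟨i, Finset.mem_coe.2 hi⟩
      · intro x hx
        obtain ⟨i, hi⟩ := h13 x hx
        exact ⟨i, Finset.mem_coe.2 hi⟩
      · by_cases hw : w = t
        · refine Or.inl ⟨hw, fun j hj hj2 => ?_⟩
          rw [← hw] at hj2
          have hm := h5 (hall j hj)
          rcases Finset.mem_union.1 (Finset.mem_coe.1 hj2) with h14 | h14
          · exact Finset.disjoint_left.1 h7 hm h14
          · exact Finset.disjoint_left.1 h9 h14 (Finset.mem_union_left _ hm)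
        · exact Or.inr (Or.inl ⟨(h10 w).2 h11, hw⟩)
    · push Not at hall
      obtain ⟨i', hi1, hi2⟩ := hall
      match w, hi2, root with
      | [], hi2, root => exact root i' hi2 (Or.inr ⟨i, hi1, rfl⟩)
      | a :: y, hi2, root =>
        obtain ⟨B₁, h1, h2, h3, h4⟩ := core y M hM (a :: y, i') hi2
        refine ⟨B₁, h1, h2, fun M' h5 h6 h7 => ?_⟩
        obtain ⟨B₂, h8, h9, t, C, P, h10, h11, h12, h13⟩ := h4 M' h5 h6 h7
        refine ⟨B₂, h8, h9, ?_⟩
        have hB : ((a :: y, i') : List (Fin 10) × Fin (266 + 1)) ∈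
            (↑(B₁ ∪ B₂) : Set (List (Fin 10) × Fin (266 + 1))) :=
          Finset.mem_coe.2 (Finset.mem_union_left _ h3)
        have hst := inv_step (↑(B₁ ∪ B₂) : Set (List (Fin 10) × Fin (266 + 1))) P t C h10 (by
          rcases h12 with h14 | ⟨i, hi⟩
          · exact Or.inl h14
          · exact Or.inr ⟨i, Finset.mem_coe.2 hi⟩) (by
          intro x hx
          obtain ⟨i, hi⟩ := h13 x hx
          exact ⟨i, Finset.mem_coe.2 hi⟩)
        have hub : Inv (↑(B₁ ∪ B₂) : Set (List (Fin 10) × Fin (266 + 1))) t C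
            (some (y, Fin.last 266)) := by
          by_cases hyt : y = t
          · exact Or.inl ⟨hyt, fun j hj => absurd hj (not_lt.2 (Fin.le_last j))⟩
          · exact Or.inr (Or.inl ⟨(h10 y).2 h11, hyt⟩)
        refine Set.Finite.subset ?_ (comp_subset _ _ (low_step _ (a :: y) i' hB _
          (fun u v hs hu => Or.inl (hst u v hs hu)) (Or.inr ⟨a, y, rfl, hub⟩)) _
          (Or.inr ⟨i, hi1, rfl⟩))
        refine Set.Finite.subset ((inv_finite (↑(B₁ ∪ B₂)) t C ((h10 t).2 Con.base)).union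
          (Set.finite_range (fun j : Fin (266 + 1) =>
            (some (a :: y, j) : Option (List (Fin 10) × Fin (266 + 1)))))) ?_
        rintro v (hv | ⟨j, -, hv⟩)
        · exact Or.inl hv
        · exact Or.inr ⟨j, hv.symm⟩

end Pool.Agent.X126.Perc
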