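import Mathlib.Data.Finset.Card
import Mathlib.Data.Set.Finite.Basic
import Mathlib.Data.Set.Finite.Lattice
import Mathlib.Logic.Relation
import Mathlib.Order.Interval.Finset.Nat
import Mathlib.Data.Fintype.EquivFin
import Mathlib.Tactic.Common
import Mathlib.Tactic.Ring
import Mathlib.Tactic.Linarith

/-! # Percolation games on multigraphs -/

set_option autoImplicit false

namespace Pool.Agent.X126.Perc

open Relation

/-- A multigraph with vertex set `V` and edge set `E`: every edge has two ends. -/
structure MGraph (V E : Type) where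
  /-- the two ends of an edge -/
  ends : E → V × V

variable {V E : Type}

/-- `x` and `y` are the two ends of an edge that does not lie in `B`. -/
def MGraph.Step (G : MGraph V E) (B : Set E) (x y : V) : Prop :=
  ∃ e, e ∉ B ∧ (G.ends e = (x, y) ∨ G.ends e = (y, x))

/-- the connected component of `x` in the graph of all edges that do not lie in `B` -/
def MGraph.comp (G : MGraph V E) (B : Set E) (x : V) : Set V :=
  {y | ReflTransGen (G.Step B) x y}

/-- `G` is connected -/
def MGraph.Conn (G : MGraph V E) : Prop := ∀ x y : V, ReflTransGen (G.Step ∅) x y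

/-- the union of the moves `a 0, ..., a (n - 1)` -/
def upTo [DecidableEq E] (a : ℕ → Finset E) (n : ℕ) : Finset E := (Finset.range n).biUnion a

/-- the `n`-th answer of Breaker, who plays by the rule `σ` (a function of the list of all moves made by
Maker so far), to the moves `a 0, a 1, ...` of Maker -/
def ans (σ : List (Finset E) → Finset E) (a : ℕ → Finset E) (n : ℕ) : Finset E :=
  σ ((List.range (n + 1)).map a)

/-- the `n`-th move of Maker is legal: `p` edges, none of them claimed before (the edges of `F` count as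
claimed) -/
def MakerLegal [DecidableEq E] (p : ℕ) (F : Finset E) (σ : List (Finset E) → Finset E)
    (a : ℕ → Finset E) (n : ℕ) : Prop :=
  (a n).card = p ∧ Disjoint (a n) (F ∪ upTo a n ∪ upTo (ans σ a) n)

/-- the `n`-th move of Breaker is legal: `q` edges, none of them claimed before -/
def BreakerLegal [DecidableEq E] (q : ℕ) (F : Finset E) (σ : List (Finset E) → Finset E)
    (a : ℕ → Finset E) (n : ℕ) : Prop :=
  (ans σ a n).card = q ∧ Disjoint (ans σ a n) (F ∪ upTo a (n + 1) ∪ upTo (ans σ a) n)

/-- Breaker has a winning strategy in the `(p,q)`-percolation game on `(G, v₀)` with head start `F`, Maker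
moving first: there is a rule `σ` such that for every sequence of legal moves of Maker all answers of
Breaker are legal and at some finite stage the component of `v₀` in the graph of all edges not claimed by
Breaker is finite. -/
def BreakerWins [DecidableEq E] (G : MGraph V E) (p q : ℕ) (F : Finset E) (v₀ : V) : Prop :=
  ∃ σ : List (Finset E) → Finset E, ∀ a : ℕ → Finset E, (∀ n, MakerLegal p F σ a n) →
    (∀ n, BreakerLegal q F σ a n) ∧ ∃ n, (G.comp (↑(upTo (ans σ a) n) : Set E) v₀).Finite

variable [DecidableEq E]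

lemma upTo_succ (a : ℕ → Finset E) (n : ℕ) : upTo a (n + 1) = upTo a n ∪ a n := by
  unfold upTo
  rw [Finset.range_add_one, Finset.biUnion_insert, Finset.union_comm]

lemma upTo_zero (a : ℕ → Finset E) : upTo a 0 = ∅ := by simp [upTo]

lemma upTo_mono (a : ℕ → Finset E) {m n : ℕ} (h : m ≤ n) : upTo a m ⊆ upTo a n := by
  unfold upTo
  exact Finset.biUnion_subset_biUnion_of_subset_left _ (Finset.range_subset_range.2 h)

lemma MGraph.Step.mono (G : MGraph V E) {B B' : Set E} (h : B ⊆ B') {x y : V} (hs : G.Step B' x y) :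
    G.Step B x y := by
  obtain ⟨e, he, h2⟩ := hs
  exact ⟨e, fun h3 => he (h h3), h2⟩

lemma MGraph.comp_anti (G : MGraph V E) {B B' : Set E} (h : B ⊆ B') (x : V) :
    G.comp B' x ⊆ G.comp B x := by
  intro y (hy : ReflTransGen (G.Step B') x y)
  change ReflTransGen (G.Step B) x y
  induction hy with
  | refl => exact ReflTransGen.refl
  | tail _ hs ih => exact ih.tail (MGraph.Step.mono G h hs)

/-- all edges of Breaker after the moves in the list (latest first) if he answers by `reply` -/
def total (reply : List (Finset E) → Finset E → Finset E → Finset E) : List (Finset E) → Finset E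
  | [] => ∅
  | a :: h => total reply h ∪ reply h a (total reply h)

/-- the strategy given by a reply function -/
def strat (reply : List (Finset E) → Finset E → Finset E → Finset E) (h : List (Finset E)) : Finset E :=
  match h.reverse with
  | [] => ∅
  | a :: h' => reply h' a (total reply h')

lemma strat_spec (reply : List (Finset E) → Finset E → Finset E → Finset E) (a : ℕ → Finset E) :
    ∀ n, ans (strat reply) a n = reply (((List.range n).map a).reverse) (a n)
      (upTo (ans (strat reply) a) n) := by
  have h1 : ∀ n, ans (strat reply) a n = reply (((List.range n).map a).reverse) (a n)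
      (total reply (((List.range n).map a).reverse)) := by
    intro n
    unfold ans strat
    rw [List.range_succ, List.map_append, List.reverse_append]
    rfl
  have h2 : ∀ n, upTo (ans (strat reply) a) n = total reply (((List.range n).map a).reverse) := by
    intro n
    induction n with
    | zero => simp [upTo, total]
    | succ n ih =>
      rw [upTo_succ, ih, h1 n, List.range_succ, List.map_append, List.reverse_append]
      rfl
  intro n
  rw [h1 n, ← h2 n]

/-- A finite set of wanted edges can be completed to a legal move. -/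
lemma exists_move [Infinite E] (X Z : Finset E) (p : ℕ) (hX : X.card ≤ p) (hd : Disjoint X Z) :
    ∃ m : Finset E, m.card = p ∧ X ⊆ m ∧ Disjoint m Z := by
  obtain ⟨S, hS1, hS2⟩ : ∃ S : Finset E, S.card = p - X.card ∧ Disjoint S (X ∪ Z) := by
    obtain ⟨T, hT, hc⟩ := (Set.Finite.infinite_compl (Finset.finite_toSet (X ∪ Z))).exists_subset_card_eq
      (p - X.card)
    refine ⟨T, hc, ?_⟩
    rw [Finset.disjoint_left]
    intro x hx hx2
    exact hT (Finset.mem_coe.2 hx) (Finset.mem_coe.2 hx2)
  refine ⟨X ∪ S, ?_, Finset.subset_union_left, ?_⟩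
  · rw [Finset.card_union_of_disjoint]
    · omega
    · exact (Finset.disjoint_of_subset_right Finset.subset_union_left hS2).symm
  · rw [Finset.disjoint_union_left]
    exact ⟨hd, Finset.disjoint_of_subset_right Finset.subset_union_right hS2⟩

/-- A two round win of Breaker gives a winning strategy. -/
theorem wins_of_two [Infinite E] (G : MGraph V E) (p q : ℕ) (v₀ : V)
    (H : ∀ M : Finset E, M.card = p → ∃ B₁ : Finset E, B₁.card = q ∧ Disjoint B₁ M ∧
      ∀ M' : Finset E, M ⊆ M' → M'.card = 2 * p → Disjoint M' B₁ → ∃ B₂ : Finset E, B₂.card = q ∧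
        Disjoint B₂ (M' ∪ B₁) ∧ (G.comp (↑(B₁ ∪ B₂) : Set E) v₀).Finite) :
    BreakerWins G p q ∅ v₀ := by
  classical
  have H' : ∀ M : Finset E, ∃ B₁ : Finset E, M.card = p → (B₁.card = q ∧ Disjoint B₁ M ∧
      ∀ M' : Finset E, M ⊆ M' → M'.card = 2 * p → Disjoint M' B₁ → ∃ B₂ : Finset E, B₂.card = q ∧
        Disjoint B₂ (M' ∪ B₁) ∧ (G.comp (↑(B₁ ∪ B₂) : Set E) v₀).Finite) := by
    intro M
    by_cases h : M.card = p
    · obtain ⟨B, hB⟩ := H M h
      exact ⟨B, fun _ => hB⟩
    · exact ⟨∅, fun h2 => absurd h2 h⟩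
  choose B₁ hB₁ using H'
  have H2 : ∀ M M' : Finset E, ∃ B₂ : Finset E, M.card = p → M ⊆ M' → M'.card = 2 * p →
      Disjoint M' (B₁ M) → (B₂.card = q ∧
        Disjoint B₂ (M' ∪ B₁ M) ∧ (G.comp (↑(B₁ M ∪ B₂) : Set E) v₀).Finite) := by
    intro M M'
    by_cases h : M.card = p ∧ M ⊆ M' ∧ M'.card = 2 * p ∧ Disjoint M' (B₁ M)
    · obtain ⟨B, hB⟩ := (hB₁ M h.1).2.2 M' h.2.1 h.2.2.1 h.2.2.2
      exact ⟨B, fun _ _ _ _ => hB⟩
    · exact ⟨∅, fun h1 h2 h3 h4 => absurd ⟨h1, h2, h3, h4⟩ h⟩
  choose B₂ hB₂ using H2
  have H3 : ∀ Z : Finset E, ∃ S : Finset E, S.card = q ∧ Disjoint S Z := by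
    intro Z
    obtain ⟨m, h1, -, h3⟩ := exists_move ∅ Z q (by simp) (by simp)
    exact ⟨m, h1, h3⟩
  choose S hS₁ hS₂ using H3
  let reply : List (Finset E) → Finset E → Finset E → Finset E := fun h a T =>
    match h with
    | [] => B₁ a
    | [a₀] => B₂ a₀ (a₀ ∪ a)
    | _ => S (h.foldr (· ∪ ·) ∅ ∪ a ∪ T)
  refine ⟨strat reply, fun a ha => ?_⟩
  have hsp := strat_spec reply a
  have e0 : ans (strat reply) a 0 = B₁ (a 0) := by rw [hsp 0]; rfl
  have e1 : ans (strat reply) a 1 = B₂ (a 0) (a 0 ∪ a 1) := by rw [hsp 1]; rfl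
  have f1 : upTo a 1 = a 0 := by rw [upTo_succ, upTo_zero]; simp
  have f2 : upTo a 2 = a 0 ∪ a 1 := by rw [upTo_succ, f1]
  have g1 : upTo (ans (strat reply) a) 1 = B₁ (a 0) := by rw [upTo_succ, upTo_zero, e0]; simp
  have g2 : upTo (ans (strat reply) a) 2 = B₁ (a 0) ∪ B₂ (a 0) (a 0 ∪ a 1) := by
    rw [upTo_succ, g1, e1]
  have c0 := (ha 0).1
  have k0 := hB₁ (a 0) c0
  have l1 := ha 1
  unfold MakerLegal at l1
  rw [f1, g1, Finset.empty_union] at l1
  have d1 : Disjoint (a 0) (a 1) :=
    (Finset.disjoint_of_subset_right Finset.subset_union_left l1.2).symm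
  have d2 : Disjoint (a 1) (B₁ (a 0)) :=
    Finset.disjoint_of_subset_right Finset.subset_union_right l1.2
  have k1 := hB₂ (a 0) (a 0 ∪ a 1) c0 Finset.subset_union_left
    (by rw [Finset.card_union_of_disjoint d1, c0, l1.1]; ring)
    (Finset.disjoint_union_left.2 ⟨k0.2.1.symm, d2⟩)
  refine ⟨fun n => ?_, 2, ?_⟩
  · match n with
    | 0 =>
      unfold BreakerLegal
      rw [e0, zero_add, f1, upTo_zero, Finset.empty_union, Finset.union_empty]
      exact ⟨k0.1, k0.2.1⟩
    | 1 =>
      unfold BreakerLegal
      rw [e1, g1, Finset.empty_union, show 1 + 1 = 2 from rfl, f2]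
      exact ⟨k1.1, k1.2.1⟩
    | (n + 2) =>
      have hfold : ∀ m : ℕ, ((((List.range m).map a).reverse).foldr (· ∪ ·) ∅) = upTo a m := by
        intro m
        induction m with
        | zero => simp [upTo]
        | succ m ih =>
          rw [List.range_succ, List.map_append, List.reverse_append, upTo_succ, Finset.union_comm]
          simp only [List.map_cons, List.map_nil, List.reverse_cons, List.reverse_nil, List.nil_append,
            List.cons_append, List.foldr_cons]
          rw [ih]
      have hrep : ∀ (h : List (Finset E)) (x T : Finset E), 2 ≤ h.length →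
          reply h x T = S (h.foldr (· ∪ ·) ∅ ∪ x ∪ T) := by
        intro h x T hh
        match h with
        | [] => simp at hh
        | [_] => simp at hh
        | (u :: v :: w) => rfl
      have e2 : ans (strat reply) a (n + 2) = S (upTo a (n + 2) ∪ a (n + 2) ∪
          upTo (ans (strat reply) a) (n + 2)) := by
        rw [hsp (n + 2), hrep _ _ _ (by simp), hfold]
      unfold BreakerLegal
      rw [Finset.empty_union, upTo_succ a (n + 2), e2]
      exact ⟨hS₁ _, hS₂ _⟩
  · rw [g2]
    exact k1.2.2

end Pool.Agent.X126.Perc
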