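import Pool.Agent.X126.Perc.Game
import Mathlib.Data.List.Infix
import Mathlib.Data.Fintype.Prod
import Mathlib.Data.Fintype.Card
import Mathlib.Data.Finset.Prod
import Mathlib.Data.Set.Finite.Lemmas

/-! # The subdivided tree -/

set_option autoImplicit false

namespace Pool.Agent.X126.Perc

open Relation

variable {D L : ℕ}

/-- The upper end of the edge `e`. -/
def pred : List (Fin D) × Fin (L + 1) → Option (List (Fin D) × Fin (L + 1))
  | ([], ⟨0, _⟩) => none
  | (_ :: y, ⟨0, _⟩) => some (y, Fin.last L)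
  | (y, ⟨i + 1, h⟩) => some (y, ⟨i, Nat.lt_of_succ_lt h⟩)

/-- The tree in which every hub has `D` children and every chain between neighbouring hubs has `L + 1`
edges: the vertices are `none` and the pairs `(y, i)`, `y` a word in `D` letters, `i ≤ L`; the hubs are the
vertices `(y, L)`. The edge `(y, i)` joins the vertex `(y, i)` to the vertex `(y, i - 1)` if `i > 0`, the
edge `(a :: y, 0)` joins the vertex `(a :: y, 0)` to the hub `(y, L)`, and the edge `([], 0)` joins
`([], 0)` to `none`. -/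
def tree (D L : ℕ) : MGraph (Option (List (Fin D) × Fin (L + 1))) (List (Fin D) × Fin (L + 1)) :=
  ⟨fun e => (pred e, some e)⟩

lemma step_iff (B : Set (List (Fin D) × Fin (L + 1))) (u v : Option (List (Fin D) × Fin (L + 1))) :
    (tree D L).Step B u v ↔ ∃ e, e ∉ B ∧ ((pred e = u ∧ some e = v) ∨ (pred e = v ∧ some e = u)) := by
  unfold MGraph.Step tree
  simp only [Prod.mk.injEq]

/-! ## connected sets of hubs -/

/-- `y` can be reached from `t` going down through words of `P` -/
inductive Con (P : Set (List (Fin D))) (t : List (Fin D)) : List (Fin D) → Prop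
  | base : Con P t t
  | step (a : Fin D) (y : List (Fin D)) : Con P t y → a :: y ∈ P → Con P t (a :: y)

lemma Con.suffix {P : Set (List (Fin D))} {t y : List (Fin D)} (h : Con P t y) : t <:+ y := by
  induction h with
  | base => exact List.suffix_refl _
  | step a y _ _ ih => exact ih.trans (List.suffix_cons a y)

lemma Con.cases' {P : Set (List (Fin D))} {t y : List (Fin D)} (h : Con P t y) :
    y = t ∨ ∃ a y', y = a :: y' ∧ Con P t y' ∧ y ∈ P := by
  cases h with
  | base => exact Or.inl rfl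
  | step a y h1 h2 => exact Or.inr ⟨a, y, rfl, h1, h2⟩

lemma Con.of_suffix {P : Set (List (Fin D))} {t y z : List (Fin D)} (h : Con P t y) (hz : z <:+ y)
    (ht : t <:+ z) : Con P t z := by
  induction h with
  | base =>
    have : z = t := hz.eq_of_length_le ht.length_le
    rw [this]
    exact Con.base
  | step a y h1 h2 ih =>
    rcases List.suffix_cons_iff.1 hz with h3 | h3
    · rw [h3]
      exact Con.step a y h1 h2
    · exact ih h3

lemma Con.mem {P : Set (List (Fin D))} {t y : List (Fin D)} (h : Con P t y) (hy : y ≠ t) : y ∈ P := by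
  rcases h.cases' with h1 | ⟨a, y', -, -, h3⟩
  · exact absurd h1 hy
  · exact h3

lemma exists_top (P : Set (List (Fin D))) (h : List (Fin D)) : ∃ t, Con P t h ∧ (t ∉ P ∨ t = []) := by
  induction h with
  | nil => exact ⟨[], Con.base, Or.inr rfl⟩
  | cons a y ih =>
    by_cases hp : a :: y ∈ P
    · obtain ⟨t, h1, h2⟩ := ih
      exact ⟨t, Con.step a y h1 hp, h2⟩
    · exact ⟨a :: y, Con.base, Or.inl hp⟩

lemma Con.mono {P Q : Set (List (Fin D))} (h : P ⊆ Q) {t y : List (Fin D)} (hc : Con P t y) :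
    Con Q t y := by
  induction hc with
  | base => exact Con.base
  | step a y _ h2 ih => exact Con.step a y ih (h h2)

/-- the children of the words in `C` -/
def Ch (C : Finset (List (Fin D))) : Finset (List (Fin D)) :=
  (C ×ˢ (Finset.univ : Finset (Fin D))).image (fun x => x.2 :: x.1)

lemma mem_Ch {C : Finset (List (Fin D))} {x : List (Fin D)} :
    x ∈ Ch C ↔ ∃ a y, x = a :: y ∧ y ∈ C := by
  unfold Ch
  rw [Finset.mem_image]
  constructor
  · rintro ⟨⟨y, a⟩, h1, rfl⟩
    exact ⟨a, y, rfl, (Finset.mem_product.1 h1).1⟩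
  · rintro ⟨a, y, rfl, h⟩
    exact ⟨(y, a), Finset.mem_product.2 ⟨h, Finset.mem_univ _⟩, rfl⟩

lemma card_Ch (C : Finset (List (Fin D))) : (Ch C).card = D * C.card := by
  unfold Ch
  rw [Finset.card_image_of_injective, Finset.card_product, Finset.card_univ, Fintype.card_fin, mul_comm]
  rintro ⟨y, a⟩ ⟨y', a'⟩ h
  simp only [List.cons.injEq] at h
  exact Prod.ext h.2 h.1

/-- the boundary -/
def Bd (C : Finset (List (Fin D))) : Finset (List (Fin D)) := Ch C \ C

lemma mem_Bd {C : Finset (List (Fin D))} {x : List (Fin D)} :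
    x ∈ Bd C ↔ (∃ a y, x = a :: y ∧ y ∈ C) ∧ x ∉ C := by
  unfold Bd
  rw [Finset.mem_sdiff, mem_Ch]

lemma card_Bd (C : Finset (List (Fin D))) (t : List (Fin D)) (ht : t ∈ C) (h1 : ∀ y ∈ C, t <:+ y)
    (h2 : ∀ y ∈ C, y ≠ t → ∃ a y', y = a :: y' ∧ y' ∈ C) :
    (Bd C).card + C.card = D * C.card + 1 := by
  have h3 : C ∩ Ch C = C.erase t := by
    ext x
    rw [Finset.mem_inter, Finset.mem_erase, mem_Ch]
    constructor
    · rintro ⟨hx, a, y, rfl, hy⟩
      refine ⟨?_, hx⟩
      intro he
      have := (h1 y hy).length_le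
      rw [← he] at this
      simp at this
    · rintro ⟨h4, h5⟩
      exact ⟨h5, h2 x h5 h4⟩
  have h4 := Finset.card_sdiff_add_card_inter (Ch C) C
  rw [Finset.inter_comm, h3, Finset.card_erase_of_mem ht, card_Ch] at h4
  have h5 : 0 < C.card := Finset.card_pos.2 ⟨t, ht⟩
  unfold Bd
  omega

lemma card_Bd_con {P : Set (List (Fin D))} {t : List (Fin D)} {C : Finset (List (Fin D))}
    (hC : ∀ y, y ∈ C ↔ Con P t y) : (Bd C).card + C.card = D * C.card + 1 := by
  refine card_Bd C t ((hC t).2 Con.base) (fun y hy => ((hC y).1 hy).suffix) (fun y hy hyt => ?_)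
  rcases ((hC y).1 hy).cases' with h | ⟨a, y', h1, h2, -⟩
  · exact absurd h hyt
  · exact ⟨a, y', h1, (hC y').2 h2⟩

lemma Bd_notMem {P : Set (List (Fin D))} {t : List (Fin D)} {C : Finset (List (Fin D))}
    (hC : ∀ y, y ∈ C ↔ Con P t y) {x : List (Fin D)} (hx : x ∈ Bd C) : x ∉ P := by
  obtain ⟨⟨a, y, rfl, hy⟩, h2⟩ := mem_Bd.1 hx
  intro h3
  exact h2 ((hC _).2 (Con.step a y ((hC y).1 hy) h3))

lemma exists_C (P : Finset (List (Fin D))) (t : List (Fin D)) :
    ∃ C : Finset (List (Fin D)), ∀ y, y ∈ C ↔ Con (↑P : Set (List (Fin D))) t y := by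
  classical
  refine ⟨(insert t P).filter (fun y => Con (↑P : Set (List (Fin D))) t y), fun y => ?_⟩
  rw [Finset.mem_filter, Finset.mem_insert]
  constructor
  · exact fun h => h.2
  · intro h
    refine ⟨?_, h⟩
    by_cases hy : y = t
    · exact Or.inl hy
    · exact Or.inr (Finset.mem_coe.1 (h.mem hy))

/-! ## finite components -/

/-- the part of the tree around `C` cut out by `B` -/
def Inv (B : Set (List (Fin D) × Fin (L + 1))) (t : List (Fin D)) (C : Finset (List (Fin D))) :
    Option (List (Fin D) × Fin (L + 1)) → Prop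
  | none => t = [] ∧ ∀ j, (t, j) ∉ B
  | some (y, i) => (y = t ∧ ∀ j, i < j → (t, j) ∉ B) ∨ (y ∈ C ∧ y ≠ t) ∨
      (y ∈ Bd C ∧ ∀ j, j ≤ i → (y, j) ∉ B)

lemma inv_finite (B : Set (List (Fin D) × Fin (L + 1))) (t : List (Fin D)) (C : Finset (List (Fin D)))
    (ht : t ∈ C) : {v | Inv B t C v}.Finite := by
  have h : {v | Inv B t C v} ⊆ insert none (some '' (↑((C ∪ Ch C) ×ˢ (Finset.univ : Finset (Fin (L + 1)))) :
      Set (List (Fin D) × Fin (L + 1)))) := by
    intro v hv
    match v with
    | none => exact Set.mem_insert _ _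
    | some (y, i) =>
      refine Set.mem_insert_of_mem _ ⟨(y, i), ?_, rfl⟩
      rw [Finset.mem_coe, Finset.mem_product, Finset.mem_union]
      refine ⟨?_, Finset.mem_univ _⟩
      rcases hv with ⟨h1, -⟩ | ⟨h1, -⟩ | ⟨h1, -⟩
      · rw [h1]
        exact Or.inl ht
      · exact Or.inl h1
      · exact Or.inr (mem_Ch.2 (mem_Bd.1 h1).1)
  exact ((Finset.finite_toSet _).image _ |>.insert _).subset h

lemma inv_step (B : Set (List (Fin D) × Fin (L + 1))) (P : Set (List (Fin D))) (t : List (Fin D))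
    (C : Finset (List (Fin D))) (hC : ∀ y, y ∈ C ↔ Con P t y) (ha : t = [] ∨ ∃ i, (t, i) ∈ B)
    (hb : ∀ x ∈ Bd C, ∃ i, (x, i) ∈ B) (u v : Option (List (Fin D) × Fin (L + 1)))
    (hs : (tree D L).Step B u v) (hu : Inv B t C u) : Inv B t C v := by
  have hub : ∀ y ∈ C, Inv (L := L) B t C (some (y, Fin.last L)) := by
    intro y hy
    by_cases hyt : y = t
    · exact Or.inl ⟨hyt, fun j hj => absurd hj (not_lt.2 (Fin.le_last j))⟩
    · exact Or.inr (Or.inl ⟨hy, hyt⟩)
  obtain ⟨e, he, ⟨h1, h2⟩ | ⟨h1, h2⟩⟩ := (step_iff B u v).1 hs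
  · -- down
    subst h2
    match e, he, h1 with
    | ([], ⟨0, h0⟩), he, h1 =>
      have h3 : u = none := h1.symm
      rw [h3] at hu
      exact Or.inl ⟨hu.1.symm, fun j _ => hu.2 j⟩
    | (a :: y, ⟨0, h0⟩), he, h1 =>
      have h3 : u = some (y, Fin.last L) := h1.symm
      rw [h3] at hu
      have hy : y ∈ C := by
        rcases hu with ⟨h4, -⟩ | ⟨h4, -⟩ | ⟨h4, h5⟩
        · rw [h4]
          exact (hC t).2 Con.base
        · exact h4
        · obtain ⟨i, hi⟩ := hb y h4
          exact absurd hi (h5 i (Fin.le_last i))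
      by_cases hc : a :: y ∈ C
      · refine Or.inr (Or.inl ⟨hc, ?_⟩)
        intro h6
        have := (((hC y).1 hy).suffix).length_le
        rw [← h6] at this
        simp at this
      · refine Or.inr (Or.inr ⟨mem_Bd.2 ⟨⟨a, y, rfl, hy⟩, hc⟩, fun j hj => ?_⟩)
        have : j = ⟨0, h0⟩ := Fin.ext (Nat.le_zero.1 hj)
        rw [this]
        exact he
    | (y, ⟨i + 1, h0⟩), he, h1 =>
      have h3 : u = some (y, ⟨i, Nat.lt_of_succ_lt h0⟩) := by
        rw [← h1]
        cases y <;> rfl
      rw [h3] at hu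
      rcases hu with ⟨h4, h5⟩ | h4 | ⟨h4, h5⟩
      · exact Or.inl ⟨h4, fun j hj => h5 j (lt_trans (Fin.mk_lt_mk.2 (Nat.lt_succ_self i)) hj)⟩
      · exact Or.inr (Or.inl h4)
      · refine Or.inr (Or.inr ⟨h4, fun j hj => ?_⟩)
        rcases Nat.lt_or_ge j.1 (i + 1) with h6 | h6
        · exact h5 j (Nat.le_of_lt_succ h6)
        · have : j = ⟨i + 1, h0⟩ := Fin.ext (le_antisymm hj h6)
          rw [this]
          exact he
  · -- up
    subst h2
    match e, he, h1, hu with
    | ([], ⟨0, h0⟩), he, h1, hu =>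
      have h3 : v = none := h1.symm
      rw [h3]
      rcases hu with ⟨h4, h5⟩ | ⟨h4, h5⟩ | ⟨h4, -⟩
      · refine ⟨h4.symm, fun j => ?_⟩
        rcases Nat.eq_zero_or_pos j.1 with h6 | h6
        · have : j = ⟨0, h0⟩ := Fin.ext h6
          rw [this, ← h4]
          exact he
        · exact h5 j h6
      · exfalso
        obtain ⟨a, y', h6, -⟩ := ((hC []).1 h4).cases'.resolve_left h5
        exact absurd h6 (by simp)
      · obtain ⟨⟨a, y', h6, -⟩, -⟩ := mem_Bd.1 h4
        exact absurd h6 (by simp)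
    | (a :: y, ⟨0, h0⟩), he, h1, hu =>
      have h3 : v = some (y, Fin.last L) := h1.symm
      rw [h3]
      apply hub
      rcases hu with ⟨h4, h5⟩ | ⟨h4, h5⟩ | ⟨h4, -⟩
      · exfalso
        rcases ha with h6 | ⟨i, h6⟩
        · rw [h6] at h4
          exact absurd h4 (by simp)
        · rcases Nat.eq_zero_or_pos i.1 with h7 | h7
          · have : i = ⟨0, h0⟩ := Fin.ext h7
            rw [this, ← h4] at h6
            exact he h6
          · exact h5 i h7 h6
      · obtain ⟨b, y', h6, h7, -⟩ := ((hC _).1 h4).cases'.resolve_left h5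
        have : y = y' := (List.cons.inj h6).2
        rw [this]
        exact (hC _).2 h7
      · obtain ⟨⟨b, y', h6, h7⟩, -⟩ := mem_Bd.1 h4
        have : y = y' := (List.cons.inj h6).2
        rw [this]
        exact h7
    | (y, ⟨i + 1, h0⟩), he, h1, hu =>
      have h3 : v = some (y, ⟨i, Nat.lt_of_succ_lt h0⟩) := by
        rw [← h1]
        cases y <;> rfl
      rw [h3]
      rcases hu with ⟨h4, h5⟩ | h4 | ⟨h4, h5⟩
      · refine Or.inl ⟨h4, fun j hj => ?_⟩
        rcases Nat.lt_or_ge (i + 1) j.1 with h6 | h6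
        · exact h5 j h6
        · have : j = ⟨i + 1, h0⟩ := Fin.ext (le_antisymm h6 hj)
          rw [this, ← h4]
          exact he
      · exact Or.inr (Or.inl h4)
      · exact Or.inr (Or.inr ⟨h4, fun j hj => h5 j (hj.trans (Nat.le_succ i))⟩)

lemma comp_subset (B : Set (List (Fin D) × Fin (L + 1)))
    (I : Option (List (Fin D) × Fin (L + 1)) → Prop)
    (h : ∀ u v, (tree D L).Step B u v → I u → I v) (v₀ : Option (List (Fin D) × Fin (L + 1)))
    (h0 : I v₀) : (tree D L).comp B v₀ ⊆ {v | I v} := by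
  intro y (hy : ReflTransGen ((tree D L).Step B) v₀ y)
  change I y
  induction hy with
  | refl => exact h0
  | tail _ hs ih => exact h _ _ hs ih

/-- the component of a vertex on the near side of the cut of a boundary chain, or on the upper side of a
cut of the chain `[]` -/
lemma low_step (B : Set (List (Fin D) × Fin (L + 1))) (w : List (Fin D)) (i' : Fin (L + 1))
    (hi' : (w, i') ∈ B) (I : Option (List (Fin D) × Fin (L + 1)) → Prop)
    (h : ∀ u v, (tree D L).Step B u v → I u → (I v ∨ ∃ j, j < i' ∧ v = some (w, j)))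
    (hI : (w = [] ∧ I none) ∨ ∃ a y, w = a :: y ∧ I (some (y, Fin.last L)))
    (u v : Option (List (Fin D) × Fin (L + 1)))
    (hs : (tree D L).Step B u v) (hu : I u ∨ ∃ j, j < i' ∧ u = some (w, j)) :
    I v ∨ ∃ j, j < i' ∧ v = some (w, j) := by
  rcases hu with hu | ⟨j, hj, rfl⟩
  · exact h u v hs hu
  · obtain ⟨e, he, ⟨h1, h2⟩ | ⟨h1, h2⟩⟩ := (step_iff B _ v).1 hs
    · -- down
      subst h2
      match e, he, h1 with
      | ([], ⟨0, h0⟩), he, h1 => exact absurd h1 (by simp [pred])
      | (a :: y, ⟨0, h0⟩), he, h1 =>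
        exfalso
        have h3 : some (y, Fin.last L) = some (w, j) := h1
        have h4 : j = Fin.last L := ((Prod.mk.inj (Option.some.inj h3)).2).symm
        rw [h4] at hj
        exact absurd hj (not_lt.2 (Fin.le_last i'))
      | (y, ⟨i + 1, h0⟩), he, h1 =>
        have h3 : some (y, (⟨i, Nat.lt_of_succ_lt h0⟩ : Fin (L + 1))) = some (w, j) := by
          rw [← h1]
          cases y <;> rfl
        obtain ⟨h4, h5⟩ := Prod.mk.inj (Option.some.inj h3)
        subst h4
        refine Or.inr ⟨⟨i + 1, h0⟩, ?_, rfl⟩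
        rcases Nat.lt_or_ge (i + 1) i'.1 with h6 | h6
        · exact h6
        · exfalso
          rw [← h5] at hj
          have : i' = ⟨i + 1, h0⟩ := Fin.ext (le_antisymm h6 hj)
          rw [this] at hi'
          exact he hi'
    · -- up
      obtain rfl := Option.some.inj h2
      match w, j, h1, he, hi' with
      | [], ⟨0, h0⟩, h1, he, hi' =>
        left
        have h3 : v = none := h1.symm
        rw [h3]
        rcases hI with ⟨-, h4⟩ | ⟨a, y, h4, -⟩
        · exact h4
        · exact absurd h4 (by simp)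
      | (a :: y), ⟨0, h0⟩, h1, he, hi' =>
        left
        have h3 : v = some (y, Fin.last L) := h1.symm
        rw [h3]
        rcases hI with ⟨h4, -⟩ | ⟨b, y', h4, h5⟩
        · exact absurd h4 (by simp)
        · have : y = y' := (List.cons.inj h4).2
          rw [this]
          exact h5
      | y, ⟨i + 1, h0⟩, h1, he, hi' =>
        right
        refine ⟨⟨i, Nat.lt_of_succ_lt h0⟩, lt_of_le_of_lt (Nat.le_succ i) hj, ?_⟩
        rw [← h1]
        cases y <;> rfl

end Pool.Agent.X126.Perc
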